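import Pool.Agent.Helper88.ETSP.Size
import Pool.Agent.Helper52.ETSP.GenMain

namespace Pool.Agent.Helper88.Prec

open Finset Pool.Agent.Helper88.ETSP

variable {m : ℕ} (v : Fin m → ℕ × ℕ)

/-- half of the excess width -/
noncomputable def tt : ℝ := ((wid v : ℝ) - GG v) / 2

theorem tt_nonneg : 0 ≤ tt v := by
  unfold tt
  rw [GG_eq]
  have := RR_nonneg v (2 * m + 1)
  linarith

noncomputable def wp (i : ℕ) : ℝ :=
  if i = 0 ∨ i = 4 * m + 5 then ww v i + tt v else ww v i

noncomputable def dp (i j : ℕ) : ℝ :=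
  if (i = 0 ∧ j = 4 * m + 5) ∨ (i = 4 * m + 5 ∧ j = 0) then
    Helper52.ETSP.edist (redPt v i) (redPt v j) + 2 * tt v
  else Helper52.ETSP.edist (redPt v i) (redPt v j)

theorem edge_dp {i j : ℕ} (hij : i ≠ j) (hi : i ≤ 4 * m + 5) (hj : j ≤ 4 * m + 5) :
    |ff1 v j - ff1 v i| / 2 + |ff2 v j - ff2 v i| / 2 + |(0 : ℝ) - 0| + wp v i + wp v j ≤
      dp v i j := by
  have h := edge v hij hi hj
  have ht := tt_nonneg v
  unfold dp wp
  unfold ff3 at h
  by_cases h1 : i = 0 ∨ i = 4 * m + 5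
  · by_cases h2 : j = 0 ∨ j = 4 * m + 5
    · rw [if_pos h1, if_pos h2, if_pos (by omega)]
      rw [if_pos h1, if_pos h2] at h
      linarith
    · rw [if_pos h1, if_neg h2, if_neg (by omega)]
      rw [if_pos h1, if_neg h2, sub_zero] at h
      have h3 : |((wid v : ℝ) - GG v) / 2| = tt v := abs_of_nonneg ht
      rw [h3] at h
      rw [sub_self, abs_zero]
      linarith
  · by_cases h2 : j = 0 ∨ j = 4 * m + 5
    · rw [if_neg h1, if_pos h2, if_neg (by omega)]
      rw [if_neg h1, if_pos h2, zero_sub, abs_neg] at h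
      have h3 : |((wid v : ℝ) - GG v) / 2| = tt v := abs_of_nonneg ht
      rw [h3] at h
      rw [sub_self, abs_zero]
      linarith
    · rw [if_neg h1, if_neg h2, if_neg (by omega)]
      rw [if_neg h1, if_neg h2, sub_self] at h
      rw [sub_self]
      linarith

theorem sum_wp : ∑ i : Fin (4 * m + 5 + 1), wp v i = ∑ i : Fin (4 * m + 5 + 1), ww v i + 2 * tt v := by
  have h : ∀ i : Fin (4 * m + 5 + 1), wp v i = ww v i + (if i = 0 then tt v else 0) +
      (if i = Fin.last (4 * m + 5) then tt v else 0) := by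
    intro i
    unfold wp
    by_cases h0 : i = 0
    · subst h0
      have h1 : (0 : Fin (4 * m + 5 + 1)) ≠ Fin.last (4 * m + 5) := by
        intro h
        have := congrArg Fin.val h
        simp at this
      have h2 : ((0 : Fin (4 * m + 5 + 1)) : ℕ) = 0 ∨
        ((0 : Fin (4 * m + 5 + 1)) : ℕ) = 4 * m + 5 := Or.inl rfl
      rw [if_pos h2, if_pos rfl, if_neg h1]
      ring
    · by_cases h1 : i = Fin.last (4 * m + 5)
      · subst h1
        have h2 : ((Fin.last (4 * m + 5)) : ℕ) = 0 ∨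
          ((Fin.last (4 * m + 5)) : ℕ) = 4 * m + 5 := Or.inr rfl
        rw [if_pos h2, if_neg h0, if_pos rfl]
        ring
      · rw [if_neg, if_neg h0, if_neg h1]
        · ring
        · rintro (h | h)
          · exact h0 (Fin.ext h)
          · exact h1 (Fin.ext h)
  rw [Finset.sum_congr rfl fun i _ => h i, Finset.sum_add_distrib, Finset.sum_add_distrib]
  simp
  ring

/-- A tour which avoids the edge between the two bottom corners is not optimal. -/
theorem lower_no_bottom (σ : Equiv.Perm (Fin (4 * m + 5 + 1)))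
    (hσ : ∀ i, ¬ (((σ i : ℕ) = 0 ∧ (σ (finRotate _ i) : ℕ) = 4 * m + 5) ∨
      ((σ i : ℕ) = 4 * m + 5 ∧ (σ (finRotate _ i) : ℕ) = 0))) :
    4 * (wid v : ℝ) + 2 * ∑ k ∈ range (2 * m + 2), om v k + 2 * tt v ≤
      ∑ i, Helper52.ETSP.edist (redPt v (σ i)) (redPt v (σ (finRotate _ i))) := by
  have h := cert (n := 4 * m + 5) (by omega)
    (fun i j => dp v i j) σ
    (fun i => wp v i) (fun i => ff1 v i) (fun i => ff2 v i) (fun _ => 0)
    (fun i j hij => edge_dp v (fun h => hij (Fin.ext h)) (by omega) (by omega))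
    ⟨4 * m + 4, by omega⟩ ⟨1, by omega⟩ ⟨4 * m + 4, by omega⟩ ⟨1, by omega⟩
    ⟨1, by omega⟩ ⟨0, by omega⟩
  have e0 : ∑ i, dp v (σ i) (σ (finRotate _ i)) =
      ∑ i, Helper52.ETSP.edist (redPt v (σ i)) (redPt v (σ (finRotate _ i))) := by
    refine Finset.sum_congr rfl fun i _ => ?_
    unfold dp
    rw [if_neg (hσ i)]
  rw [← e0]
  refine le_trans ?_ h
  have e1 : ff1 v (4 * m + 4) = GG v := by
    unfold ff1 GG
    rw [if_neg (by omega)]
  have e2 : ff1 v 1 = 0 := by unfold ff1; rw [if_neg (by omega), xi_one]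
  have e3 : ff2 v (4 * m + 4) = GG v := by
    unfold ff2 GG
    rw [if_neg (by omega)]
  have e4 : ff2 v 1 = 0 := by unfold ff2; rw [if_neg (by omega), xi_one]
  simp only [e1, e2, e3, e4]
  rw [sum_wp, sum_ww]
  unfold tt
  rw [GG_eq, RR_total]
  linarith

theorem tt_eq : 2 * tt v = 2 * ∑ i, Real.sqrt (((v i).1 : ℝ) ^ 2 + ((v i).2 : ℝ) ^ 2) -
    2 * ∑ i, ((v i).1 : ℝ) := by
  rw [← sum_om]
  unfold tt
  rw [GG_eq, RR_total]
  ring

end Pool.Agent.Helper88.Prec
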