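import Pool.Agent.Helper88.Prec.Multi

namespace Pool.Agent.Helper88.Prec

open Finset
open scoped Pointwise

/-- A bound from below for a homogeneous linear form gives solutions, with positive coefficients,
of the inhomogeneous problem. -/
theorem cover {n : ℕ} (hn : 1 ≤ n) (r : Fin n → ℝ) {κ : ℝ} (hκ : 0 < κ)
    (hlow : ∀ Q : ℕ, 1 ≤ Q → ∀ a : Fin n → ℤ, (∀ i, |a i| ≤ Q) → a ≠ 0 →
      ∀ b : ℤ, κ / (Q : ℝ) ^ n ≤ |∑ i, (a i : ℝ) * r i - b|) :
    ∃ C : ℕ, 1 ≤ C ∧ ∀ Q : ℕ, 1 ≤ Q → ∀ t : ℝ, ∃ c : Fin n → ℕ, (∀ i, 1 ≤ c i ∧ c i ≤ C * Q) ∧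
      ∃ b : ℤ, t + b ≤ ∑ i, (c i : ℝ) * r i ∧
        ∑ i, (c i : ℝ) * r i ≤ t + b + C / (Q : ℝ) ^ n := by
  obtain ⟨k, hk⟩ : ∃ k : ℕ, 2 / κ + 4 ≤ k := exists_nat_ge _
  obtain ⟨C, hC⟩ : ∃ C : ℕ, (k + 2) * (κ + 1) ≤ C := exists_nat_ge _
  have hk4 : (4 : ℝ) ≤ k := by
    have : 0 < 2 / κ := by positivity
    linarith
  have hCk : (k : ℝ) + 2 ≤ C := by nlinarith
  refine ⟨C, ?_, ?_⟩
  · have : (1 : ℝ) ≤ C := by linarith
    exact_mod_cast this
  intro Q hQ t
  have hQ1 : (1 : ℝ) ≤ Q := by exact_mod_cast hQ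
  have hQn : (1 : ℝ) ≤ (Q : ℝ) ^ n := one_le_pow₀ hQ1
  -- the prime
  set M : ℕ := ⌈(Q : ℝ) ^ n / κ⌉₊ + 1 with hM
  obtain ⟨p, hp, hMp, hpM⟩ := Nat.exists_prime_lt_and_le_two_mul M (by omega)
  have : Fact p.Prime := ⟨hp⟩
  have hp0 : (0 : ℝ) < p := by exact_mod_cast hp.pos
  have hp1 : (Q : ℝ) ^ n / κ < p := by
    have h1 := Nat.le_ceil ((Q : ℝ) ^ n / κ)
    have h2 : (M : ℝ) < p := Nat.cast_lt.2 hMp
    rw [hM] at h2
    push_cast at h2
    linarith
  have hp2 : (p : ℝ) ≤ k * (Q : ℝ) ^ n := by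
    have h1 := Nat.ceil_lt_add_one (a := (Q : ℝ) ^ n / κ) (by positivity)
    have h2 : (p : ℝ) ≤ ((2 * M : ℕ) : ℝ) := Nat.cast_le.2 hpM
    rw [hM] at h2
    push_cast at h2
    have h3 : (Q : ℝ) ^ n / κ = (1 / κ) * (Q : ℝ) ^ n := by ring
    have h4 : 2 / κ = 2 * (1 / κ) := by ring
    rw [h4] at hk
    rw [h3] at h1 h2
    nlinarith
  -- the cells
  let X : (Fin n → ℕ) → ℝ := fun c => ∑ i, (c i : ℝ) * r i
  let cell : (Fin n → ℕ) → ZMod p := fun c => ((⌊(p : ℝ) * X c⌋ : ℤ) : ZMod p)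
  let box : Finset (Fin n → ℕ) := Fintype.piFinset fun _ => Finset.range (Q + 1)
  have hbox : ∀ c, c ∈ box ↔ ∀ i, c i ≤ Q := by
    intro c
    simp only [box, Fintype.mem_piFinset, Finset.mem_range]
    exact forall_congr' fun i => by omega
  have hinj : Set.InjOn cell (box : Set (Fin n → ℕ)) := by
    intro c hc c' hc' h
    have hc := (hbox c).1 (Finset.mem_coe.1 hc)
    have hc' := (hbox c').1 (Finset.mem_coe.1 hc')
    by_contra hne
    have h1 : ((p : ℤ)) ∣ ⌊(p : ℝ) * X c'⌋ - ⌊(p : ℝ) * X c⌋ :=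
      (ZMod.intCast_eq_intCast_iff_dvd_sub _ _ _).1 h
    obtain ⟨z, hz⟩ := h1
    have h2 := hlow Q hQ (fun i => (c' i : ℤ) - (c i : ℤ)) (fun i => by
      have := hc i
      have := hc' i
      rw [abs_le]
      constructor <;> omega) (fun h0 => hne (by
        funext i
        have := congrFun h0 i
        simp only [Pi.zero_apply] at this
        omega)) z
    have h3 : ∑ i, (((c' i : ℤ) - (c i : ℤ) : ℤ) : ℝ) * r i - z = X c' - X c - z := by
      simp only [X]
      rw [← Finset.sum_sub_distrib]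
      congr 1
      refine Finset.sum_congr rfl fun i _ => ?_
      push_cast
      ring
    rw [h3] at h2
    have h4 : |(p : ℝ) * (X c' - X c - z)| < 1 := by
      have e1 := Int.floor_le ((p : ℝ) * X c)
      have e2 := Int.lt_floor_add_one ((p : ℝ) * X c)
      have e3 := Int.floor_le ((p : ℝ) * X c')
      have e4 := Int.lt_floor_add_one ((p : ℝ) * X c')
      have e5 : (⌊(p : ℝ) * X c'⌋ : ℝ) - ⌊(p : ℝ) * X c⌋ = p * z := by exact_mod_cast hz
      rw [abs_lt]
      constructor <;> nlinarith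
    rw [abs_mul, abs_of_pos hp0] at h4
    have h5 : (p : ℝ) * (κ / (Q : ℝ) ^ n) < 1 := lt_of_le_of_lt (by gcongr) h4
    have h6 : (Q : ℝ) ^ n < p * κ := by
      rw [div_lt_iff₀ hκ] at hp1
      exact hp1
    rw [mul_div_assoc', div_lt_one (by positivity)] at h5
    linarith
  set A : Finset (ZMod p) := box.image cell with hA
  have hAcard : Q ^ n + 1 ≤ A.card := by
    rw [hA, Finset.card_image_of_injOn hinj]
    simp only [box, Fintype.card_piFinset, Finset.card_range, Finset.prod_const, Finset.card_univ,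
      Fintype.card_fin]
    exact Nat.pow_lt_pow_left (Nat.lt_succ_self Q) (by omega)
  have hAne : A.Nonempty := Finset.card_pos.1 (by omega)
  -- iterated sumsets
  have hcov : ∀ j : ℕ, ∃ S : Finset (ZMod p), min p (j * Q ^ n + 1) ≤ S.card ∧
      ∀ a ∈ S, ∃ c : Fin n → ℕ, (∀ i, c i ≤ j * Q) ∧ ∃ z : ℤ, (z : ZMod p) = a ∧
        (z : ℝ) ≤ p * X c ∧ p * X c ≤ z + j := by
    intro j
    induction j with
    | zero =>
      refine ⟨{0}, by simp, ?_⟩
      intro a ha
      rw [Finset.mem_singleton] at ha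
      subst ha
      refine ⟨fun _ => 0, by simp, 0, by simp, ?_, ?_⟩ <;> simp [X]
    | succ j ih =>
      obtain ⟨S, hS, hS2⟩ := ih
      have hSne : S.Nonempty := Finset.card_pos.1 (by
        have := hp.pos
        have : 0 < min p (j * Q ^ n + 1) := by
          rw [lt_min_iff]; omega
        omega)
      refine ⟨S + A, ?_, ?_⟩
      · have h1 := ZMod.cauchy_davenport hp hSne hAne
        refine le_trans ?_ h1
        rw [Nat.succ_mul]
        omega
      · intro a ha
        obtain ⟨u, hu, v, hv, rfl⟩ := Finset.mem_add.1 ha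
        obtain ⟨c, hc, z, hz, hz1, hz2⟩ := hS2 u hu
        obtain ⟨c', hc', hcv⟩ := Finset.mem_image.1 hv
        have hc'2 := (hbox c').1 hc'
        refine ⟨fun i => c i + c' i, fun i => ?_, z + ⌊(p : ℝ) * X c'⌋, ?_, ?_, ?_⟩
        · have h7 := hc i
          have h8 := hc'2 i
          change c i + c' i ≤ (j + 1) * Q
          rw [Nat.succ_mul]
          omega
        · push_cast
          rw [hz]
          congr 1
        · have e3 := Int.floor_le ((p : ℝ) * X c')
          have e5 : X (fun i => c i + c' i) = X c + X c' := by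
            simp only [X]
            rw [← Finset.sum_add_distrib]
            refine Finset.sum_congr rfl fun i _ => ?_
            push_cast
            ring
          rw [e5]
          push_cast
          linarith
        · have e4 := Int.lt_floor_add_one ((p : ℝ) * X c')
          have e5 : X (fun i => c i + c' i) = X c + X c' := by
            simp only [X]
            rw [← Finset.sum_add_distrib]
            refine Finset.sum_congr rfl fun i _ => ?_
            push_cast
            ring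
          rw [e5]
          push_cast
          linarith
  obtain ⟨S, hS, hS2⟩ := hcov k
  have hSuniv : S = Finset.univ := by
    rw [← Finset.card_eq_iff_eq_univ, ZMod.card]
    apply le_antisymm
    · have := Finset.card_le_univ S
      rwa [ZMod.card] at this
    · refine le_trans ?_ hS
      rw [le_min_iff]
      refine ⟨le_rfl, ?_⟩
      have : p ≤ k * Q ^ n := by exact_mod_cast hp2
      exact this.trans (Nat.le_succ _)
  -- the target
  set s : ℝ := ∑ i, r i with hs
  set z0 : ℤ := ⌈(p : ℝ) * (t - s)⌉ with hz0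
  obtain ⟨c, hc, z, hz, hz1, hz2⟩ := hS2 (z0 : ZMod p) (by rw [hSuniv]; exact Finset.mem_univ _)
  obtain ⟨b, hb⟩ := (ZMod.intCast_eq_intCast_iff_dvd_sub _ _ _).1 hz.symm
  have hb' : (z : ℝ) = z0 + p * b := by
    have : z = z0 + p * b := by linarith
    exact_mod_cast this
  refine ⟨fun i => c i + 1, fun i => ⟨Nat.le_add_left 1 _, ?_⟩, b, ?_, ?_⟩
  · have h1 := hc i
    have h2 : k + 1 ≤ C := by
      have : (k : ℝ) + 1 ≤ C := by linarith
      exact_mod_cast this
    calc c i + 1 ≤ k * Q + Q := by omega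
      _ = (k + 1) * Q := by ring
      _ ≤ C * Q := Nat.mul_le_mul_right _ h2
  · have e1 := Int.le_ceil ((p : ℝ) * (t - s))
    have e5 : ∑ i, ((c i + 1 : ℕ) : ℝ) * r i = X c + s := by
      simp only [X, hs]
      rw [← Finset.sum_add_distrib]
      refine Finset.sum_congr rfl fun i _ => ?_
      push_cast
      ring
    rw [e5]
    have e6 : (p : ℝ) * (t + b) ≤ p * (X c + s) := by
      rw [hb'] at hz1
      nlinarith
    exact le_of_mul_le_mul_left e6 hp0
  · have e1 := Int.ceil_lt_add_one ((p : ℝ) * (t - s))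
    have e5 : ∑ i, ((c i + 1 : ℕ) : ℝ) * r i = X c + s := by
      simp only [X, hs]
      rw [← Finset.sum_add_distrib]
      refine Finset.sum_congr rfl fun i _ => ?_
      push_cast
      ring
    rw [e5]
    have e6 : (p : ℝ) * (X c + s) ≤ p * (t + b) + (k + 1) := by
      rw [hb'] at hz2
      nlinarith
    have e7 : (k + 1 : ℝ) ≤ p * (C / (Q : ℝ) ^ n) := by
      rw [mul_div_assoc', le_div_iff₀ (by positivity)]
      rw [div_lt_iff₀ hκ] at hp1
      have h8 : (k + 1 : ℝ) * (Q : ℝ) ^ n ≤ (k + 1) * (p * κ) := by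
        gcongr
      have h9 : ((k : ℝ) + 1) * κ ≤ C := by nlinarith
      nlinarith
    have e8 : (p : ℝ) * (X c + s) ≤ p * (t + b + C / (Q : ℝ) ^ n) := by
      rw [mul_add (p : ℝ) (t + b)]
      linarith
    exact le_of_mul_le_mul_left e8 hp0

end Pool.Agent.Helper88.Prec
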