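import Mathlib

namespace Pool.Agent.Helper88.Prec

open NumberField Finset

/-- A nonzero algebraic integer of a real number field of degree at most `n + 1` all whose
conjugates are at most `H` is at least `H ^ (-n)`. -/
theorem one_le_abs_mul_pow (K : IntermediateField ℚ ℝ) [FiniteDimensional ℚ K] {n : ℕ}
    (hK : Module.finrank ℚ K ≤ n + 1) (x : K) (hx : IsIntegral ℤ x) (h0 : x ≠ 0) {H : ℝ}
    (h1 : 1 ≤ H) (hH : ∀ σ : K →+* ℂ, ‖σ x‖ ≤ H) : 1 ≤ |(x : ℝ)| * H ^ n := by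
  have : NumberField K := ⟨⟩
  have hnorm := norm_norm_le_norm_mul_house_pow (K := K) x (Complex.ofRealHom.comp K.val.toRingHom)
  have hhouse : house x ≤ H := by
    rw [house_eq_sup']
    refine (NNReal.coe_le_coe.2 (Finset.sup'_le (a := (⟨H, by linarith⟩ : NNReal)) _ _ ?_)).trans ?_
    · intro σ _
      exact hH σ
    · exact le_rfl
  have hN : (1 : ℝ) ≤ ‖Algebra.norm ℚ x‖ := by
    have hint : IsIntegral ℤ (Algebra.norm ℚ x) := Algebra.isIntegral_norm ℚ hx
    obtain ⟨z, hz⟩ := IsIntegrallyClosed.isIntegral_iff.1 hint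
    have hne : Algebra.norm ℚ x ≠ 0 := (Algebra.norm_ne_zero_iff).2 h0
    rw [← hz] at hne ⊢
    have hz0 : z ≠ 0 := by
      rintro rfl
      simp at hne
    have : (1 : ℤ) ≤ |z| := Int.one_le_abs hz0
    have h2 : ((1 : ℤ) : ℝ) ≤ ((|z| : ℤ) : ℝ) := by exact_mod_cast this
    rw [eq_intCast, ← Rat.norm_cast_real, Rat.cast_intCast, Real.norm_eq_abs]
    simpa using h2
  have hx0 : ‖(Complex.ofRealHom.comp K.val.toRingHom) x‖ = |(x : ℝ)| := by
    simp
  rw [hx0] at hnorm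
  have hpow : house x ^ (Module.finrank ℚ K - 1) ≤ H ^ n := by
    calc house x ^ (Module.finrank ℚ K - 1) ≤ H ^ (Module.finrank ℚ K - 1) :=
          pow_le_pow_left₀ (house_nonneg x) hhouse _
      _ ≤ H ^ n := pow_le_pow_right₀ h1 (by omega)
  calc (1 : ℝ) ≤ ‖Algebra.norm ℚ x‖ := hN
    _ ≤ |(x : ℝ)| * house x ^ (Module.finrank ℚ K - 1) := hnorm
    _ ≤ |(x : ℝ)| * H ^ n := by gcongr

/-- Liouville type lower bound for linear forms in square roots. -/
theorem linear_form_lower {ι : Type*} [Fintype ι] (K : IntermediateField ℚ ℝ)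
    [FiniteDimensional ℚ K] (hK : Module.finrank ℚ K ≤ Fintype.card ι + 1) (d : ι → ℕ)
    (hd : ∀ i, Real.sqrt (d i) ∈ K)
    (hind : ∀ (a : ι → ℤ) (b : ℤ), (∑ i, (a i : ℝ) * Real.sqrt (d i)) = b → a = 0) :
    ∃ κ : ℝ, 0 < κ ∧ ∀ Q : ℕ, 1 ≤ Q → ∀ a : ι → ℤ, (∀ i, |a i| ≤ Q) → a ≠ 0 → ∀ b : ℤ,
      κ / (Q : ℝ) ^ (Fintype.card ι) ≤ |∑ i, (a i : ℝ) * Real.sqrt (d i) - b| := by
  set R : ℝ := ∑ i, Real.sqrt (d i) with hR
  have hR0 : 0 ≤ R := Finset.sum_nonneg fun i _ => Real.sqrt_nonneg _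
  set n := Fintype.card ι with hn
  refine ⟨1 / (2 * R + 1) ^ n, by positivity, ?_⟩
  intro Q hQ a ha ha0 b
  have hQ1 : (1 : ℝ) ≤ Q := by exact_mod_cast hQ
  have haR : ∀ i, |(a i : ℝ)| ≤ Q := fun i => by exact_mod_cast ha i
  have hsum : |∑ i, (a i : ℝ) * Real.sqrt (d i)| ≤ Q * R := by
    rw [hR, Finset.mul_sum]
    refine (Finset.abs_sum_le_sum_abs _ _).trans (Finset.sum_le_sum fun i _ => ?_)
    rw [abs_mul, abs_of_nonneg (Real.sqrt_nonneg _)]
    exact mul_le_mul_of_nonneg_right (haR i) (Real.sqrt_nonneg _)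
  have hbase : (1 : ℝ) ≤ (2 * R + 1) * Q := by nlinarith
  have hgoal : 1 / (2 * R + 1) ^ n / (Q : ℝ) ^ n = 1 / ((2 * R + 1) * Q) ^ n := by
    rw [mul_pow, div_div]
  rw [hgoal]
  have hpos : 0 < ((2 * R + 1) * Q) ^ n := by positivity
  rw [div_le_iff₀ hpos]
  rcases le_or_gt |(b : ℝ)| ((R + 1) * Q) with hb | hb
  · -- main case
    set x : K := ∑ i, (a i : K) * (⟨Real.sqrt (d i), hd i⟩ : K) - (b : K) with hx
    have hxr : (x : ℝ) = ∑ i, (a i : ℝ) * Real.sqrt (d i) - b := by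
      rw [hx]
      push_cast
      rfl
    have hsq : ∀ i, (⟨Real.sqrt (d i), hd i⟩ : K) ^ 2 = (d i : K) := by
      intro i
      apply Subtype.ext
      simp [Real.sq_sqrt]
    have hxint : IsIntegral ℤ x := by
      refine IsIntegral.sub (IsIntegral.sum _ fun i _ => ?_) (isIntegral_algebraMap (x := b))
      refine IsIntegral.mul (isIntegral_algebraMap (x := a i)) ?_
      refine IsIntegral.of_pow (n := 2) (by norm_num) ?_
      rw [hsq i]
      exact isIntegral_algebraMap (R := ℤ) (x := (d i : ℤ))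
    have hx0 : x ≠ 0 := by
      intro h
      apply ha0
      apply hind a b
      have h9 : (x : ℝ) = ((0 : K) : ℝ) := by rw [h]
      rw [hxr, ZeroMemClass.coe_zero] at h9
      linarith
    have hconj : ∀ σ : K →+* ℂ, ‖σ x‖ ≤ (2 * R + 1) * Q := by
      intro σ
      have hs : ∀ i, ‖σ (⟨Real.sqrt (d i), hd i⟩ : K)‖ = Real.sqrt (d i) := by
        intro i
        have h2 : ‖σ (⟨Real.sqrt (d i), hd i⟩ : K)‖ ^ 2 = (d i : ℝ) := by
          rw [← norm_pow, ← map_pow, hsq i, map_natCast]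
          simp
        exact ((Real.sqrt_eq_iff_eq_sq (by positivity) (norm_nonneg _)).2 h2.symm).symm
      rw [hx, map_sub, map_sum]
      refine (norm_sub_le _ _).trans ?_
      have h3 : ‖∑ i, σ ((a i : K) * (⟨Real.sqrt (d i), hd i⟩ : K))‖ ≤ Q * R := by
        rw [hR, Finset.mul_sum]
        refine (norm_sum_le _ _).trans (Finset.sum_le_sum fun i _ => ?_)
        rw [map_mul, norm_mul, hs i, map_intCast]
        refine mul_le_mul_of_nonneg_right ?_ (Real.sqrt_nonneg _)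
        rw [Complex.norm_intCast]
        exact haR i
      have h4 : ‖σ (b : K)‖ ≤ (R + 1) * Q := by
        rw [map_intCast, Complex.norm_intCast]
        exact hb
      linarith
    have := one_le_abs_mul_pow K hK x hxint hx0 hbase hconj
    rw [hxr] at this
    exact this
  · have h5 : 1 ≤ |∑ i, (a i : ℝ) * Real.sqrt (d i) - b| := by
      have h6 := abs_sub_abs_le_abs_sub (b : ℝ) (∑ i, (a i : ℝ) * Real.sqrt (d i))
      rw [abs_sub_comm] at h6
      have : (R + 1) * Q = Q * R + Q := by ring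
      linarith
    have h7 : (1 : ℝ) ≤ ((2 * R + 1) * Q) ^ n := one_le_pow₀ hbase
    nlinarith

end Pool.Agent.Helper88.Prec
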