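import Pool.Agent.Helper88.Prec.Bottom
import Pool.Agent.Helper88.Prec.Cover

namespace Pool.Agent.Helper88.Prec

open Finset Pool.Agent.Helper52.ETSP Pool.Agent.Helper88.ETSP

/-- The size of an instance: `4 n + 6` points, coordinates at most `N` in absolute value and a
bound at most `C N`. -/
def Sized (I : Instance) (n N C : ℕ) : Prop :=
  I.n = 4 * n + 6 ∧ (∀ i, |(I.pt i).1| ≤ N ∧ |(I.pt i).2| ≤ N) ∧ I.bound ≤ C * N

section reduction

variable {m : ℕ} (v : Fin m → ℕ × ℕ) (hv : ∀ i, v i ≠ (0, 0)) (B : ℕ)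

/-- the sum of the norms -/
noncomputable def SS : ℝ := ∑ i, Real.sqrt (((v i).1 : ℝ) ^ 2 + ((v i).2 : ℝ) ^ 2)

theorem bound_eq : ((reduce v hv B).bound : ℝ) =
    4 * (wid v : ℝ) - 2 * ∑ i, ((v i).1 : ℝ) + 2 * B := by
  have h1 := sum_fst_le v
  have h2 := wid_ge v
  change ((redBound v B : ℕ) : ℝ) = _
  unfold redBound
  rw [Nat.cast_add, Nat.cast_sub (by omega)]
  push_cast
  ring

theorem len_ge (σ : Equiv.Perm (Fin (reduce v hv B).n)) :
    ((reduce v hv B).bound : ℝ) + 2 * (SS v - B) ≤ (reduce v hv B).len σ := by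
  have h := (isLeast_len v hv B).2 ⟨σ, rfl⟩
  rw [bound_eq]
  unfold SS
  linarith

theorem exists_len : ∃ σ : Equiv.Perm (Fin (reduce v hv B).n),
    (reduce v hv B).len σ = ((reduce v hv B).bound : ℝ) + 2 * (SS v - B) := by
  obtain ⟨σ, hσ⟩ := (isLeast_len v hv B).1
  refine ⟨σ, ?_⟩
  rw [hσ, bound_eq]
  unfold SS
  ring

theorem down (s : ℕ) (h : 2 * (s : ℝ) * (SS v - B) < 1) : (reduce v hv B).RoundedYes 0 s := by
  obtain ⟨σ, hσ⟩ := exists_len v hv B
  refine ⟨σ, ?_⟩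
  have h1 := Gen.lowered_le_len (reduce v hv B) s σ
  rw [hσ] at h1
  have h2 : ((reduce v hv B).roundedLen 0 s σ : ℝ) < ((s * (reduce v hv B).bound + 1 : ℕ) : ℝ) := by
    push_cast
    linarith
  have h3 := Nat.cast_lt.1 h2
  omega

theorem sqdist_bottom :
    sqdist (redPt v 0) (redPt v (4 * m + 5)) = wid v ^ 2 := by
  have e : redPt v (4 * m + 5) = ((wid v : ℤ), -(wid v : ℤ)) := by
    unfold redPt; simp
  have e0 : redPt v 0 = (0, -(wid v : ℤ)) := by unfold redPt; simp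
  rw [e, e0]
  unfold sqdist
  simp

theorem sqdist_bottom' :
    sqdist (redPt v (4 * m + 5)) (redPt v 0) = wid v ^ 2 := by
  have e : redPt v (4 * m + 5) = ((wid v : ℤ), -(wid v : ℤ)) := by
    unfold redPt; simp
  have e0 : redPt v 0 = (0, -(wid v : ℤ)) := by unfold redPt; simp
  rw [e, e0]
  unfold sqdist
  simp

theorem rounded_ge (I : Instance) (s : ℕ) (σ : Equiv.Perm (Fin I.n)) (i0 : Fin I.n)
    {w : ℕ} (h0 : sqdist (I.pt (σ i0)) (I.pt (σ (finRotate I.n i0))) = w ^ 2) :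
    s * I.len σ + 1 ≤ (I.roundedLen 1 s σ : ℝ) := by
  unfold Instance.len Instance.roundedLen
  rw [Finset.mul_sum]
  have h1 : (1 : ℝ) = ∑ i : Fin I.n, if i = i0 then 1 else 0 := by simp
  rw [h1, ← Finset.sum_add_distrib]
  push_cast
  apply Finset.sum_le_sum
  intro i _
  rw [Gen.edist_eq_sqrt]
  by_cases hi : i = i0
  · subst hi
    rw [h0, if_pos rfl]
    have h2 : Nat.sqrt (s ^ 2 * w ^ 2) = s * w := by
      rw [← mul_pow, Nat.sqrt_eq']
    rw [h2]
    push_cast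
    rw [Real.sqrt_sq (Nat.cast_nonneg w)]
  · rw [if_neg hi, add_zero]
    have := Gen.le_round s (sqdist (I.pt (σ i)) (I.pt (σ (finRotate I.n i))))
    push_cast at this
    exact this

theorem up (s : ℕ) (hs : 0 < s) (h : 2 * (s : ℝ) * (B - SS v) < 1) (ht : B - SS v < tt v) :
    ¬ (reduce v hv B).RoundedYes 1 s := by
  rintro ⟨σ, hσ⟩
  have hs0 : (0 : ℝ) < s := by exact_mod_cast hs
  have hσ' : ((reduce v hv B).roundedLen 1 s σ : ℝ) ≤ s * (reduce v hv B).bound := by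
    exact_mod_cast hσ
  by_cases hb : ∃ i, ((σ i : ℕ) = 0 ∧ (σ (finRotate _ i) : ℕ) = 4 * m + 5) ∨
      ((σ i : ℕ) = 4 * m + 5 ∧ (σ (finRotate _ i) : ℕ) = 0)
  · obtain ⟨i, hi⟩ := hb
    have h0 : sqdist ((reduce v hv B).pt (σ i))
        ((reduce v hv B).pt (σ (finRotate (reduce v hv B).n i))) = wid v ^ 2 := by
      change sqdist (redPt v (σ i)) (redPt v (σ (finRotate _ i))) = _
      rcases hi with ⟨h1, h2⟩ | ⟨h1, h2⟩
      · rw [h1, h2]; exact sqdist_bottom v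
      · rw [h1, h2]; exact sqdist_bottom' v
    have h1 := rounded_ge (reduce v hv B) s σ i h0
    have h2 := len_ge v hv B σ
    have h3 := mul_le_mul_of_nonneg_left h2 hs0.le
    linarith
  · rw [not_exists] at hb
    have h1 := lower_no_bottom v σ hb
    have h2 := Gen.len_le_rounded (reduce v hv B) s σ
    have h3 : ((reduce v hv B).bound : ℝ) + 2 * (SS v - B) + 2 * tt v ≤
        (reduce v hv B).len σ := by
      refine le_trans (le_of_eq ?_) h1
      rw [bound_eq, sum_om]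
      unfold SS
      ring
    have h4 := mul_le_mul_of_nonneg_left h3 hs0.le
    have h5 : (s : ℝ) * (B - SS v) < s * tt v := mul_lt_mul_of_pos_left ht hs0
    linarith

end reduction

theorem main (m k : ℕ) (hm : 1 ≤ m) : ∃ C : ℕ, 0 < C ∧ ∀ N : ℕ, C ≤ N → ∃ I J : Instance,
    Sized I (2 ^ m - 1 + k) N C ∧ Sized J (2 ^ m - 1 + k) N C ∧
    (∃ σ, I.len σ < I.bound) ∧
    (∀ σ, (I.bound : ℝ) - C / (N : ℝ) ^ (2 ^ m - 1) ≤ I.len σ) ∧
    (∀ σ, (J.bound : ℝ) < J.len σ) ∧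
    (∃ σ, J.len σ ≤ (J.bound : ℝ) + C / (N : ℝ) ^ (2 ^ m - 1)) ∧
    ∀ s : ℕ, 0 < s → C * s ≤ N ^ (2 ^ m - 1) → ¬ I.RoundedYes 1 s ∧ J.RoundedYes 0 s := by
  set n : ℕ := 2 ^ m - 1 with hn
  have hn1 : 1 ≤ n := by
    have : 2 ^ 1 ≤ 2 ^ m := Nat.pow_le_pow_right (by norm_num) hm
    omega
  obtain ⟨w, hw, κ, hκ, hlow⟩ := exists_vectors m
  set r : Fin n → ℝ := fun i => Real.sqrt (((w i).1 : ℝ) ^ 2 + ((w i).2 : ℝ) ^ 2) with hr
  obtain ⟨C0, hC0, hcov⟩ := cover hn1 r hκ hlow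
  -- the linear form never takes integral values
  have hirr : ∀ c : Fin n → ℕ, (∀ i, 1 ≤ c i) → ∀ b : ℤ, ∑ i, (c i : ℝ) * r i ≠ b := by
    intro c hc b h
    have h1 := hlow (1 + ∑ i, c i) (by omega) (fun i => (c i : ℤ)) (fun i => by
      have := Finset.single_le_sum (f := c) (fun _ _ => Nat.zero_le _) (Finset.mem_univ i)
      rw [abs_of_nonneg (by positivity)]
      exact_mod_cast (by omega : c i ≤ 1 + ∑ i, c i)) (fun h0 => by
        have h2 := congrFun h0 ⟨0, hn1⟩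
        have h3 := hc ⟨0, hn1⟩
        simp only [Pi.zero_apply] at h2
        omega) b
    have h2 : ∑ i, (((c i : ℤ)) : ℝ) * r i - b = 0 := by
      rw [← h]
      simp
    change _ ≤ |∑ i, (((c i : ℤ)) : ℝ) * r i - b| at h1
    rw [h2, abs_zero] at h1
    have : 0 < κ / (((1 + ∑ i, c i : ℕ) : ℝ)) ^ n := by positivity
    linarith
  -- norms
  have hr1 : ∀ i, 1 ≤ r i := by
    intro i
    simp only [hr]
    rw [Real.one_le_sqrt]
    have h1 : 1 ≤ (w i).1 ^ 2 + (w i).2 ^ 2 := by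
      by_contra h
      have h2 : (w i).1 ^ 2 + (w i).2 ^ 2 = 0 := by omega
      have h3 : (w i).1 = 0 := by
        have : (w i).1 ^ 2 = 0 := by omega
        exact pow_eq_zero_iff (by norm_num) |>.1 this
      have h4 : (w i).2 = 0 := by
        have : (w i).2 ^ 2 = 0 := by omega
        exact pow_eq_zero_iff (by norm_num) |>.1 this
      exact hw i (Prod.ext h3 h4)
    exact_mod_cast h1
  have hrx : ∀ i, ((w i).1 : ℝ) ≤ r i := by
    intro i
    simp only [hr]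
    apply Real.le_sqrt_of_sq_le
    nlinarith [sq_nonneg ((w i).2 : ℝ)]
  have hrx2 : ∀ i, r i ≤ ((w i).1 + (w i).2 : ℝ) := by
    intro i
    simp only [hr]
    apply Real.sqrt_le_iff.2
    constructor
    · positivity
    · have h1 : (0 : ℝ) ≤ (w i).1 := Nat.cast_nonneg _
      have h2 : (0 : ℝ) ≤ (w i).2 := Nat.cast_nonneg _
      nlinarith [mul_nonneg h1 h2]
  -- the excess is positive
  set ρ : ℝ := ∑ i, (r i - (w i).1) with hρ
  have hρ0 : 0 < ρ := by
    have h1 : 0 ≤ ρ := Finset.sum_nonneg fun i _ => sub_nonneg.2 (hrx i)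
    rcases h1.lt_or_eq with h | h
    · exact h
    · exfalso
      apply hirr (fun _ => 1) (fun _ => le_rfl) ((∑ i, (w i).1 : ℕ) : ℤ)
      rw [hρ, Finset.sum_sub_distrib] at h
      push_cast
      simp only [one_mul]
      linarith
  -- constants
  set W : ℕ := ∑ i, ((w i).1 + (w i).2) with hW
  set D : ℕ := 21 * (n + k + 1) ^ 2 * (1 + C0 * W + k) with hD
  have hD1 : 1 ≤ D := by
    have : 1 ≤ 21 * (n + k + 1) ^ 2 * (1 + C0 * W + k) := Nat.mul_pos (by positivity) (by omega)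
    exact this
  obtain ⟨E, hE⟩ : ∃ E : ℕ, (C0 + 1 : ℝ) / ρ + C0 + 1 ≤ E := exists_nat_ge _
  have hE0 : (C0 + 1 : ℝ) ≤ E := by
    have : 0 ≤ (C0 + 1 : ℝ) / ρ := by positivity
    linarith
  have hEρ : (C0 : ℝ) < E * ρ := by
    have h1 : (C0 + 1 : ℝ) / ρ ≤ E := by
      have : (0 : ℝ) ≤ C0 := Nat.cast_nonneg _
      linarith
    rw [div_le_iff₀ hρ0] at h1
    linarith
  set F : ℕ := 2 * C0 * (2 * D) ^ n with hF
  obtain ⟨C, hC⟩ : ∃ C : ℕ, C = D * E + F + 84 * (n + k + 1) ^ 2 * (1 + C0 * W + k) + 2 * (C0 * W + 1 + k) + 1 :=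
    ⟨_, rfl⟩
  refine ⟨C, by omega, ?_⟩
  intro N hN
  set Q : ℕ := N / D with hQ
  have hDQ : D * Q ≤ N := Nat.mul_div_le N D
  have hQE : E ≤ Q := by
    rw [hQ, Nat.le_div_iff_mul_le (by omega)]
    rw [mul_comm]
    omega
  have hNQ : N < D * (Q + 1) := by
    have := Nat.lt_mul_div_succ N (show 0 < D by omega)
    rw [hQ]
    exact this
  have hE1 : 1 ≤ E := by
    have : (1 : ℝ) ≤ E := by
      have : (0 : ℝ) ≤ C0 := Nat.cast_nonneg _
      linarith
    exact_mod_cast this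
  have hQ1 : 1 ≤ Q := hE1.trans hQE
  have hN2 : N ≤ 2 * D * Q := by nlinarith
  have hQ1' : (1 : ℝ) ≤ Q := by exact_mod_cast hQ1
  have hN0 : (0 : ℝ) < N := by
    have : 0 < N := by omega
    exact_mod_cast this
  -- the gap
  have hgap : 2 * ((C0 : ℝ) / (Q : ℝ) ^ n) ≤ F / (N : ℝ) ^ n := by
    have h1 : (N : ℝ) ^ n ≤ (2 * D : ℝ) ^ n * (Q : ℝ) ^ n := by
      rw [← mul_pow]
      apply pow_le_pow_left₀ hN0.le
      exact_mod_cast hN2
    have h2 : (F : ℝ) = 2 * C0 * (2 * D : ℝ) ^ n := by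
      rw [hF]; push_cast; ring
    rw [h2, ← mul_div_assoc, div_le_div_iff₀ (by positivity) (by positivity)]
    have h3 : (0 : ℝ) ≤ 2 * C0 := by positivity
    nlinarith [mul_le_mul_of_nonneg_left h1 h3]
  have hsmallρ : (C0 : ℝ) / (Q : ℝ) ^ n < ρ := by
    have h1 : (Q : ℝ) ≤ (Q : ℝ) ^ n := by
      calc (Q : ℝ) = (Q : ℝ) ^ 1 := (pow_one _).symm
        _ ≤ (Q : ℝ) ^ n := pow_le_pow_right₀ hQ1' hn1
    have h2 : (E : ℝ) ≤ Q := by exact_mod_cast hQE
    rw [div_lt_iff₀ (by positivity)]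
    nlinarith
  have hsmall1 : (C0 : ℝ) / (Q : ℝ) ^ n < 1 := by
    have h1 : (Q : ℝ) ≤ (Q : ℝ) ^ n := by
      calc (Q : ℝ) = (Q : ℝ) ^ 1 := (pow_one _).symm
        _ ≤ (Q : ℝ) ^ n := pow_le_pow_right₀ hQ1' hn1
    have h2 : (E : ℝ) ≤ Q := by exact_mod_cast hQE
    rw [div_lt_iff₀ (by positivity)]
    linarith
  -- vectors from coefficients
  have hfacts : ∀ c : Fin n → ℕ, (∀ i, 1 ≤ c i ∧ c i ≤ C0 * Q) →
      let v : Fin (n + k) → ℕ × ℕ :=
        Fin.append (fun i => (c i * (w i).1, c i * (w i).2)) (fun _ => (1, 0))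
      (∀ i, v i ≠ (0, 0)) ∧ SS v = ∑ i, (c i : ℝ) * r i + k ∧ ρ ≤ tt v ∧
      ∑ j, ((v j).1 + (v j).2) ≤ C0 * Q * W + k := by
    intro c hc v
    have hSS : SS v = ∑ i, (c i : ℝ) * r i + k := by
      unfold SS
      rw [Fin.sum_univ_add]
      have hk : ∑ i : Fin k, Real.sqrt (((v (Fin.natAdd n i)).1 : ℝ) ^ 2 +
          ((v (Fin.natAdd n i)).2 : ℝ) ^ 2) = k := by
        simp [v, Fin.append_right]
      rw [hk]
      congr 1
      refine Finset.sum_congr rfl fun i _ => ?_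
      simp only [v, hr, Fin.append_left]
      rw [show (((c i * (w i).1 : ℕ) : ℝ)) ^ 2 + (((c i * (w i).2 : ℕ) : ℝ)) ^ 2 =
        (c i : ℝ) ^ 2 * (((w i).1 : ℝ) ^ 2 + ((w i).2 : ℝ) ^ 2) by push_cast; ring]
      rw [Real.sqrt_mul (by positivity), Real.sqrt_sq (Nat.cast_nonneg _)]
    refine ⟨?_, hSS, ?_, ?_⟩
    · intro i
      refine Fin.addCases (fun i => ?_) (fun i => ?_) i
      swap
      · simp [v, Fin.append_right]
      intro h
      simp only [v, Fin.append_left] at h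
      apply hw i
      have h1 : c i * (w i).1 = 0 := congrArg Prod.fst h
      have h2 : c i * (w i).2 = 0 := congrArg Prod.snd h
      have h3 := (hc i).1
      rcases Nat.mul_eq_zero.1 h1 with h4 | h4
      · omega
      · rcases Nat.mul_eq_zero.1 h2 with h5 | h5
        · omega
        · exact Prod.ext h4 h5
    · have h1 := tt_eq v
      have h2 : tt v = SS v - ∑ i, ((v i).1 : ℝ) := by
        unfold SS; linarith
      have h5 : ∑ i, ((v i).1 : ℝ) = ∑ i, ((c i * (w i).1 : ℕ) : ℝ) + k := by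
        rw [Fin.sum_univ_add]
        have hk : ∑ i : Fin k, ((v (Fin.natAdd n i)).1 : ℝ) = k := by
          simp [v, Fin.append_right]
        rw [hk]
        congr 1
        refine Finset.sum_congr rfl fun i _ => ?_
        simp only [v, Fin.append_left]
      rw [h2, hSS, h5, add_sub_add_right_eq_sub, ← Finset.sum_sub_distrib, hρ]
      refine Finset.sum_le_sum fun i _ => ?_
      push_cast
      have h3 : (1 : ℝ) ≤ c i := by exact_mod_cast (hc i).1
      have h4 := hrx i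
      nlinarith
    · rw [hW, Finset.mul_sum, Fin.sum_univ_add]
      have hk : ∑ i : Fin k, ((v (Fin.natAdd n i)).1 + (v (Fin.natAdd n i)).2) = k := by
        simp [v, Fin.append_right]
      rw [hk]
      refine Nat.add_le_add_right (Finset.sum_le_sum fun i _ => ?_) _
      simp only [v, Fin.append_left]
      rw [← mul_add]
      exact Nat.mul_le_mul_right _ (hc i).2
  have hupper : ∀ c : Fin n → ℕ, (∀ i, 1 ≤ c i ∧ c i ≤ C0 * Q) →
      ∑ i, (c i : ℝ) * r i ≤ ((C0 * Q * W : ℕ) : ℝ) := by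
    intro c hc
    rw [hW, Finset.mul_sum, Nat.cast_sum]
    refine Finset.sum_le_sum fun i _ => ?_
    push_cast
    have h3 : (c i : ℝ) ≤ C0 * Q := by exact_mod_cast (hc i).2
    have h4 := hrx2 i
    have h5 := hr1 i
    have h6 : (0 : ℝ) ≤ c i := Nat.cast_nonneg _
    nlinarith
  have hlower : ∀ c : Fin n → ℕ, (∀ i, 1 ≤ c i ∧ c i ≤ C0 * Q) →
      1 ≤ ∑ i, (c i : ℝ) * r i := by
    intro c hc
    have h1 : (1 : ℝ) ≤ (c ⟨0, hn1⟩ : ℝ) * r ⟨0, hn1⟩ := by
      have h3 : (1 : ℝ) ≤ c ⟨0, hn1⟩ := by exact_mod_cast (hc _).1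
      have h5 := hr1 ⟨0, hn1⟩
      nlinarith
    refine h1.trans ?_
    exact Finset.single_le_sum (f := fun i => (c i : ℝ) * r i)
      (fun i _ => mul_nonneg (Nat.cast_nonneg _) (zero_le_one.trans (hr1 i))) (Finset.mem_univ _)
  have hsized : ∀ (v : Fin (n + k) → ℕ × ℕ)
      (hv : ∀ i, v i ≠ (0, 0)) (B : ℕ), ∑ j, ((v j).1 + (v j).2) ≤ C0 * Q * W + k →
      B ≤ C0 * Q * W + 1 + k → Sized (reduce v hv B) (n + k) N C := by
    intro v hv B hsum hB
    obtain ⟨-, h1, h2, h3⟩ := Helper88.ETSP.main v hv B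
    have h4 : 1 + ∑ j, ((v j).1 + (v j).2) ≤ (1 + C0 * W + k) * Q := by
      have e1 : (1 + C0 * W + k) * Q = Q + C0 * Q * W + k * Q := by ring
      have e2 : k * 1 ≤ k * Q := Nat.mul_le_mul_left _ hQ1
      omega
    have h5 : 21 * (n + k + 1) ^ 2 * (1 + ∑ j, ((v j).1 + (v j).2)) ≤ N := by
      calc 21 * (n + k + 1) ^ 2 * (1 + ∑ j, ((v j).1 + (v j).2))
          ≤ 21 * (n + k + 1) ^ 2 * ((1 + C0 * W + k) * Q) := Nat.mul_le_mul_left _ h4
        _ = D * Q := by rw [hD]; ring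
        _ ≤ N := hDQ
    have hQN : Q ≤ N := by
      calc Q = 1 * Q := (one_mul _).symm
        _ ≤ D * Q := Nat.mul_le_mul_right _ hD1
        _ ≤ N := hDQ
    refine ⟨h1, fun i => ?_, ?_⟩
    · obtain ⟨a1, a2⟩ := h2 i
      have h6 : ((21 * (n + k + 1) ^ 2 * (1 + ∑ j, ((v j).1 + (v j).2)) : ℕ) : ℤ) ≤ N := by
        exact_mod_cast h5
      exact ⟨a1.trans h6, a2.trans h6⟩
    · refine h3.trans ?_
      have h6 : 84 * (n + k + 1) ^ 2 * (1 + ∑ j, ((v j).1 + (v j).2)) ≤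
          84 * (n + k + 1) ^ 2 * (1 + C0 * W + k) * N := by
        calc 84 * (n + k + 1) ^ 2 * (1 + ∑ j, ((v j).1 + (v j).2))
            ≤ 84 * (n + k + 1) ^ 2 * ((1 + C0 * W + k) * Q) := Nat.mul_le_mul_left _ h4
          _ ≤ 84 * (n + k + 1) ^ 2 * ((1 + C0 * W + k) * N) :=
            Nat.mul_le_mul_left _ (Nat.mul_le_mul_left _ hQN)
          _ = _ := by ring
      have h7 : 2 * B ≤ 2 * (C0 * W + 1 + k) * N := by
        have e1 : (C0 * W + 1 + k) * N = C0 * W * N + 1 * N + k * N := by ring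
        have e2 : k * 1 ≤ k * N := Nat.mul_le_mul_left _ (hQ1.trans hQN)
        have e3 : C0 * Q * W ≤ C0 * W * N := by
          calc C0 * Q * W = C0 * W * Q := by ring
            _ ≤ C0 * W * N := Nat.mul_le_mul_left _ hQN
        have e4 : C0 * Q * W + 1 + k ≤ (C0 * W + 1 + k) * N := by omega
        calc 2 * B ≤ 2 * (C0 * Q * W + 1 + k) := by omega
          _ ≤ 2 * ((C0 * W + 1 + k) * N) := Nat.mul_le_mul_left _ e4
          _ = _ := by ring
      have h8 : 84 * (n + k + 1) ^ 2 * (1 + C0 * W + k) * N + 2 * (C0 * W + 1 + k) * N ≤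
          C * N := by
        rw [← add_mul]
        apply Nat.mul_le_mul_right
        omega
      omega
  have hsC : ∀ s : ℕ, 0 < s → C * s ≤ N ^ n → ∀ δ : ℝ, δ ≤ (C0 : ℝ) / (Q : ℝ) ^ n →
      2 * (s : ℝ) * δ < 1 := by
    intro s hs hCs δ hδ
    have hs0 : (0 : ℝ) < s := by exact_mod_cast hs
    have h1 : 2 * δ ≤ F / (N : ℝ) ^ n := by linarith
    have h2 : (C : ℝ) * s ≤ (N : ℝ) ^ n := by exact_mod_cast hCs
    have h3 : (F : ℝ) < C := by
      have : F < C := by omega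
      exact_mod_cast this
    have h4 : s * (2 * δ) ≤ s * (F / (N : ℝ) ^ n) := mul_le_mul_of_nonneg_left h1 hs0.le
    have h5 : s * (F / (N : ℝ) ^ n) < 1 := by
      rw [mul_div_assoc', div_lt_one (by positivity)]
      nlinarith
    linarith
  have hCF : (F : ℝ) / (N : ℝ) ^ n ≤ C / (N : ℝ) ^ n := by
    have : (F : ℝ) ≤ C := by
      have : F ≤ C := by omega
      exact_mod_cast this
    gcongr
  -- the no-instance
  obtain ⟨c, hc, b, hb1, hb2⟩ := hcov Q hQ1 0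
  obtain ⟨hv, hSS, htt, hsum⟩ := hfacts c hc
  rw [zero_add] at hb1 hb2
  have hbne := hirr c (fun i => (hc i).1) b
  have hblt : (b : ℝ) < ∑ i, (c i : ℝ) * r i := lt_of_le_of_ne hb1 (Ne.symm hbne)
  have hb0 : 0 ≤ b := by
    have h1 := hlower c hc
    have : (-1 : ℝ) < b := by linarith
    have : (-1 : ℤ) < b := by exact_mod_cast this
    omega
  obtain ⟨B, rfl⟩ := Int.eq_ofNat_of_zero_le hb0
  -- the yes-instance
  obtain ⟨c', hc', b', hb1', hb2'⟩ := hcov Q hQ1 (-((C0 : ℝ) / (Q : ℝ) ^ n))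
  obtain ⟨hv', hSS', htt', hsum'⟩ := hfacts c' hc'
  have hb2'' : ∑ i, (c' i : ℝ) * r i ≤ b' := by linarith
  have hbne' := hirr c' (fun i => (hc' i).1) b'
  have hblt' : ∑ i, (c' i : ℝ) * r i < b' := lt_of_le_of_ne hb2'' hbne'
  have hb0' : 0 ≤ b' := by
    have h1 := hlower c' hc'
    have : (0 : ℝ) < b' := by linarith
    have : (0 : ℤ) < b' := by exact_mod_cast this
    omega
  obtain ⟨B', rfl⟩ := Int.eq_ofNat_of_zero_le hb0'
  rw [Int.cast_natCast] at hb1 hb2 hblt hb1' hb2' hb2'' hblt'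
  refine ⟨reduce _ hv' (B' + k), reduce _ hv (B + k), ?_, ?_, ?_, ?_, ?_, ?_, ?_⟩
  · refine hsized _ hv' (B' + k) hsum' (Nat.add_le_add_right ?_ _)
    have h1 := hupper c' hc'
    have h2 : (B' : ℝ) ≤ ((C0 * Q * W + 1 : ℕ) : ℝ) := by
      rw [Nat.cast_add, Nat.cast_one]
      linarith
    exact_mod_cast h2
  · refine hsized _ hv (B + k) hsum (Nat.add_le_add_right ?_ _)
    have h1 := hupper c hc
    have h2 : (B : ℝ) ≤ ((C0 * Q * W + 1 : ℕ) : ℝ) := by
      rw [Nat.cast_add, Nat.cast_one]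
      linarith
    exact_mod_cast h2
  · obtain ⟨σ, hσ⟩ := exists_len _ hv' (B' + k)
    refine ⟨σ, ?_⟩
    rw [hσ, hSS', Nat.cast_add]
    linarith
  · intro σ
    have h1 := len_ge _ hv' (B' + k) σ
    rw [hSS', Nat.cast_add] at h1
    linarith
  · intro σ
    have h1 := len_ge _ hv (B + k) σ
    rw [hSS, Nat.cast_add] at h1
    linarith
  · obtain ⟨σ, hσ⟩ := exists_len _ hv (B + k)
    refine ⟨σ, ?_⟩
    rw [hσ, hSS, Nat.cast_add]
    linarith
  · intro s hs hCs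
    constructor
    · apply up _ hv' (B' + k) s hs
      · rw [hSS', Nat.cast_add]
        exact hsC s hs hCs _ (by linarith)
      · rw [hSS', Nat.cast_add]
        linarith
    · apply down _ hv (B + k) s
      rw [hSS, Nat.cast_add]
      exact hsC s hs hCs _ (by linarith)

end Pool.Agent.Helper88.Prec
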