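import Pool.Agent.Helper88.Prec.Liouville

namespace Pool.Agent.Helper88.Prec

open Finset IntermediateField

/-- The field generated by the square roots of the elements of `s`. -/
noncomputable def KF (s : Finset ℕ) : IntermediateField ℚ ℝ :=
  IntermediateField.adjoin ℚ ((fun q : ℕ => Real.sqrt q) '' (s : Set ℕ))

theorem isIntegral_sqrt (q : ℕ) : IsIntegral ℚ (Real.sqrt q) := by
  refine IsIntegral.of_pow (n := 2) (by norm_num) ?_
  rw [Real.sq_sqrt (Nat.cast_nonneg q)]
  exact isIntegral_algebraMap (R := ℚ) (x := (q : ℚ))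

theorem finrank_simple_le (q : ℕ) : Module.finrank ℚ ℚ⟮Real.sqrt q⟯ ≤ 2 := by
  rw [IntermediateField.adjoin.finrank (isIntegral_sqrt q)]
  have h1 : (Polynomial.X ^ 2 - Polynomial.C (q : ℚ)).Monic :=
    Polynomial.monic_X_pow_sub_C _ (by norm_num)
  have h2 : Polynomial.aeval (Real.sqrt q) (Polynomial.X ^ 2 - Polynomial.C (q : ℚ)) = 0 := by
    simp [Real.sq_sqrt]
  have h3 := Polynomial.natDegree_le_of_dvd (minpoly.dvd ℚ (Real.sqrt q) h2) h1.ne_zero
  refine h3.trans ?_
  rw [Polynomial.natDegree_X_pow_sub_C]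

theorem KF_insert (q : ℕ) (s : Finset ℕ) : KF (insert q s) = KF s ⊔ ℚ⟮Real.sqrt q⟯ := by
  unfold KF
  rw [Finset.coe_insert, Set.image_insert_eq, Set.insert_eq, Set.union_comm,
    IntermediateField.adjoin_union]

instance fd_simple (q : ℕ) : FiniteDimensional ℚ ℚ⟮Real.sqrt q⟯ :=
  IntermediateField.adjoin.finiteDimensional (isIntegral_sqrt q)

theorem KF_empty : KF ∅ = ⊥ := by
  unfold KF
  simp

theorem KF_fd (s : Finset ℕ) : FiniteDimensional ℚ (KF s) ∧ Module.finrank ℚ (KF s) ≤ 2 ^ s.card := by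
  induction s using Finset.induction_on with
  | empty =>
    rw [KF_empty]
    refine ⟨inferInstance, ?_⟩
    simp
  | insert q s hq ih =>
    obtain ⟨h1, h2⟩ := ih
    rw [KF_insert, Finset.card_insert_of_notMem hq]
    refine ⟨IntermediateField.finiteDimensional_sup _ _, ?_⟩
    refine (IntermediateField.finrank_sup_le _ _).trans ?_
    rw [pow_succ]
    exact Nat.mul_le_mul h2 (finrank_simple_le q)

theorem sqrt_mem_KF {q : ℕ} {s : Finset ℕ} (hq : q ∈ s) : Real.sqrt q ∈ KF s :=
  IntermediateField.subset_adjoin _ _ ⟨q, hq, rfl⟩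

theorem KF_mono {s t : Finset ℕ} (h : s ⊆ t) : KF s ≤ KF t :=
  IntermediateField.adjoin.mono _ _ _ (Set.image_mono (by exact_mod_cast h))

theorem exists_rep {q : ℕ} {s : Finset ℕ} {x : ℝ} (hx : x ∈ KF (insert q s)) :
    ∃ a ∈ KF s, ∃ b ∈ KF s, x = a + b * Real.sqrt q := by
  have halg : ∀ y ∈ ((fun q : ℕ => Real.sqrt q) '' ((insert q s : Finset ℕ) : Set ℕ)),
      IsAlgebraic ℚ y := by
    rintro _ ⟨r, -, rfl⟩
    exact (isIntegral_sqrt r).isAlgebraic
  have h1 : (KF (insert q s)).toSubalgebra = Algebra.adjoin ℚ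
      ((fun q : ℕ => Real.sqrt q) '' ((insert q s : Finset ℕ) : Set ℕ)) :=
    IntermediateField.adjoin_toSubalgebra_of_isAlgebraic halg
  have hx2 : x ∈ Algebra.adjoin ℚ
      ((fun q : ℕ => Real.sqrt q) '' ((insert q s : Finset ℕ) : Set ℕ)) := by
    rw [← h1]; exact hx
  clear hx
  induction hx2 using Algebra.adjoin_induction with
  | mem x h =>
    obtain ⟨r, hr, rfl⟩ := h
    rcases Finset.mem_insert.1 (Finset.mem_coe.1 hr) with rfl | hr
    · exact ⟨0, zero_mem _, 1, one_mem _, by simp⟩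
    · exact ⟨_, sqrt_mem_KF hr, 0, zero_mem _, by simp⟩
  | algebraMap r =>
    exact ⟨_, (KF s).algebraMap_mem r, 0, zero_mem _, by simp⟩
  | add x y hx hy ihx ihy =>
    obtain ⟨a, ha, b, hb, rfl⟩ := ihx
    obtain ⟨c, hc, d, hd, rfl⟩ := ihy
    exact ⟨a + c, add_mem ha hc, b + d, add_mem hb hd, by ring⟩
  | mul x y hx hy ihx ihy =>
    obtain ⟨a, ha, b, hb, rfl⟩ := ihx
    obtain ⟨c, hc, d, hd, rfl⟩ := ihy
    refine ⟨a * c + b * d * q, add_mem (mul_mem ha hc) (mul_mem (mul_mem hb hd) (_root_.natCast_mem _ q)),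
      a * d + b * c, add_mem (mul_mem ha hd) (mul_mem hb hc), ?_⟩
    have h2 : Real.sqrt q * Real.sqrt q = q := Real.mul_self_sqrt (Nat.cast_nonneg q)
    linear_combination (b * d) * h2

theorem squarefree_prod (T : Finset ℕ) (hT : ∀ q ∈ T, q.Prime) : Squarefree (∏ q ∈ T, q) := by
  induction T using Finset.induction_on with
  | empty => simp
  | insert q s hq ih =>
    rw [Finset.prod_insert hq]
    have h1 : Nat.Coprime q (∏ r ∈ s, r) := by
      apply Nat.Coprime.prod_right
      intro r hr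
      rw [Nat.coprime_primes (hT q (Finset.mem_insert_self _ _))
        (hT r (Finset.mem_insert_of_mem hr))]
      rintro rfl
      exact hq hr
    rw [Nat.squarefree_mul h1]
    exact ⟨(hT q (Finset.mem_insert_self _ _)).squarefree, ih fun r hr =>
      hT r (Finset.mem_insert_of_mem hr)⟩

theorem sqrt_prod (T : Finset ℕ) :
    Real.sqrt ((∏ q ∈ T, q : ℕ) : ℝ) = ∏ q ∈ T, Real.sqrt q := by
  induction T using Finset.induction_on with
  | empty => simp
  | insert q s hq ih =>
    rw [Finset.prod_insert hq, Finset.prod_insert hq, Nat.cast_mul,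
      Real.sqrt_mul (Nat.cast_nonneg q), ih]

theorem sqrt_notMem (s : Finset ℕ) (hs : ∀ q ∈ s, q.Prime) : ∀ T : Finset ℕ, (∀ q ∈ T, q.Prime) →
    Disjoint T s → T.Nonempty → Real.sqrt ((∏ q ∈ T, q : ℕ) : ℝ) ∉ KF s := by
  induction s using Finset.induction_on with
  | empty =>
    intro T hT _ hne hmem
    rw [KF_empty, IntermediateField.mem_bot] at hmem
    obtain ⟨r, hr⟩ := hmem
    have h1 : Irrational (Real.sqrt ((∏ q ∈ T, q : ℕ) : ℝ)) := by
      rw [irrational_sqrt_natCast_iff]
      rintro ⟨c, hc⟩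
      have h2 := squarefree_prod T hT
      have h3 := h2 c ⟨1, by rw [hc]; ring⟩
      rw [Nat.isUnit_iff] at h3
      rw [h3] at hc
      obtain ⟨q, hq⟩ := hne
      have h4 : q ∣ ∏ q ∈ T, q := Finset.dvd_prod_of_mem _ hq
      rw [hc] at h4
      exact (hT q hq).one_lt.ne' (Nat.dvd_one.1 (by simpa using h4))
    exact h1 ⟨r, by simpa using hr⟩
  | insert p s hp ih =>
    have ih' := ih (fun q hq => hs q (Finset.mem_insert_of_mem hq))
    have hpp : p.Prime := hs p (Finset.mem_insert_self _ _)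
    have hp0 : (0 : ℝ) < p := by exact_mod_cast hpp.pos
    have hsp : Real.sqrt p ≠ 0 := (Real.sqrt_pos.2 hp0).ne'
    have hsp2 : Real.sqrt p * Real.sqrt p = p := Real.mul_self_sqrt hp0.le
    have hpK : Real.sqrt p ∉ KF s := by
      have := ih' {p} (by simpa using hpp) (by simpa using hp) (by simp)
      simpa using this
    intro T hT hdis hne hmem
    have hpT : p ∉ T := fun h => (Finset.disjoint_left.1 hdis h) (Finset.mem_insert_self _ _)
    have hTs : Disjoint T s := hdis.mono_right (Finset.subset_insert _ _)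
    obtain ⟨a, ha, b, hb, hab⟩ := exists_rep hmem
    set D : ℝ := Real.sqrt ((∏ q ∈ T, q : ℕ) : ℝ) with hD
    have hD2 : D * D = ((∏ q ∈ T, q : ℕ) : ℝ) := Real.mul_self_sqrt (Nat.cast_nonneg _)
    have hkey : 2 * a * b * Real.sqrt p = ((∏ q ∈ T, q : ℕ) : ℝ) - a * a - b * b * p := by
      rw [← hD2, hab]
      linear_combination (-(b * b)) * hsp2
    by_cases ha0 : a = 0
    · -- D * √p = b * p
      have h1 : D * Real.sqrt p = b * p := by
        rw [hab, ha0]
        linear_combination b * hsp2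
      have h2 : Real.sqrt ((∏ q ∈ insert p T, q : ℕ) : ℝ) = b * p := by
        rw [← h1, Finset.prod_insert hpT, Nat.cast_mul, Real.sqrt_mul hp0.le, mul_comm]
      refine ih' (insert p T) (fun q hq => ?_) ?_ (Finset.insert_nonempty _ _) ?_
      · rcases Finset.mem_insert.1 hq with rfl | hq
        · exact hpp
        · exact hT q hq
      · rw [Finset.disjoint_insert_left]
        exact ⟨hp, hTs⟩
      · rw [h2]
        exact mul_mem hb (_root_.natCast_mem _ p)
    · by_cases hb0 : b = 0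
      · apply ih' T hT hTs hne
        change D ∈ KF s
        rw [hab, hb0]
        simpa using ha
      · apply hpK
        have h1 : Real.sqrt p = (((∏ q ∈ T, q : ℕ) : ℝ) - a * a - b * b * p) / (2 * a * b) := by
          rw [← hkey]
          field_simp
        rw [h1]
        refine div_mem (sub_mem (sub_mem (_root_.natCast_mem _ _) (mul_mem ha ha))
          (mul_mem (mul_mem hb hb) (_root_.natCast_mem _ p))) (mul_mem (mul_mem ?_ ha) hb)
        exact_mod_cast _root_.natCast_mem (KF s) 2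

theorem indep (s : Finset ℕ) (hs : ∀ q ∈ s, q.Prime) : ∀ a : Finset ℕ → ℤ,
    ∑ T ∈ s.powerset, (a T : ℝ) * Real.sqrt ((∏ q ∈ T, q : ℕ) : ℝ) = 0 →
    ∀ T ∈ s.powerset, a T = 0 := by
  induction s using Finset.induction_on with
  | empty =>
    intro a h T hT
    simp only [Finset.powerset_empty, Finset.sum_singleton, Finset.prod_empty, Nat.cast_one,
      Real.sqrt_one, mul_one, Finset.mem_singleton] at h hT
    rw [hT]
    exact_mod_cast h
  | insert p s hp ih =>
    have hs' : ∀ q ∈ s, q.Prime := fun q hq => hs q (Finset.mem_insert_of_mem hq)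
    have hpp : p.Prime := hs p (Finset.mem_insert_self _ _)
    have hp0 : (0 : ℝ) < p := by exact_mod_cast hpp.pos
    have hpK : Real.sqrt p ∉ KF s := by
      have := sqrt_notMem s hs' {p} (by simpa using hpp) (by simpa using hp) (by simp)
      simpa using this
    intro a h
    rw [Finset.sum_powerset_insert hp] at h
    set A : ℝ := ∑ T ∈ s.powerset, (a T : ℝ) * Real.sqrt ((∏ q ∈ T, q : ℕ) : ℝ) with hA
    set B : ℝ := ∑ T ∈ s.powerset, (a (insert p T) : ℝ) * Real.sqrt ((∏ q ∈ T, q : ℕ) : ℝ) with hB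
    have hmem : ∀ c : Finset ℕ → ℤ,
        ∑ T ∈ s.powerset, (c T : ℝ) * Real.sqrt ((∏ q ∈ T, q : ℕ) : ℝ) ∈ KF s := by
      intro c
      refine sum_mem fun T hT => mul_mem (intCast_mem _ _) ?_
      rw [sqrt_prod]
      exact prod_mem fun q hq => sqrt_mem_KF (Finset.mem_powerset.1 hT hq)
    have h2 : ∑ T ∈ s.powerset, (a (insert p T) : ℝ) *
        Real.sqrt ((∏ q ∈ insert p T, q : ℕ) : ℝ) = B * Real.sqrt p := by
      rw [hB, Finset.sum_mul]
      refine Finset.sum_congr rfl fun T hT => ?_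
      have hpT : p ∉ T := fun h => hp (Finset.mem_powerset.1 hT h)
      rw [Finset.prod_insert hpT, Nat.cast_mul, Real.sqrt_mul hp0.le]
      ring
    rw [h2] at h
    have hB0 : B = 0 := by
      by_contra hB0
      apply hpK
      have : Real.sqrt p = -A / B := by
        field_simp
        linarith
      rw [this]
      exact div_mem (neg_mem (hmem a)) (hmem fun T => a (insert p T))
    have hA0 : A = 0 := by
      rw [hB0] at h
      linarith
    have i1 := ih hs' a hA0
    have i2 := ih hs' (fun T => a (insert p T)) hB0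
    intro T hT
    by_cases hpT : p ∈ T
    · have h3 := i2 (T.erase p) (by
        rw [Finset.mem_powerset] at hT ⊢
        intro q hq
        have := hT (Finset.mem_of_mem_erase hq)
        rcases Finset.mem_insert.1 this with rfl | h
        · exact absurd rfl (Finset.ne_of_mem_erase hq)
        · exact h)
      simp only [Finset.insert_erase hpT] at h3
      exact h3
    · apply i1
      rw [Finset.mem_powerset] at hT ⊢
      intro q hq
      rcases Finset.mem_insert.1 (hT hq) with rfl | h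
      · exact absurd hq hpT
      · exact h

theorem sum_two_squares (T : Finset ℕ) (hT : ∀ q ∈ T, q.Prime ∧ q % 4 = 1) :
    ∃ x y : ℕ, ∏ q ∈ T, q = x ^ 2 + y ^ 2 := by
  induction T using Finset.induction_on with
  | empty => exact ⟨1, 0, by simp⟩
  | insert q s hq ih =>
    obtain ⟨x, y, hxy⟩ := ih fun r hr => hT r (Finset.mem_insert_of_mem hr)
    obtain ⟨hq1, hq2⟩ := hT q (Finset.mem_insert_self _ _)
    have : Fact q.Prime := ⟨hq1⟩
    obtain ⟨a, b, hab⟩ := Nat.Prime.sq_add_sq (p := q) (by omega)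
    rw [Finset.prod_insert hq, hxy]
    obtain ⟨u, v, huv⟩ := Nat.sq_add_sq_mul hab.symm (rfl : x ^ 2 + y ^ 2 = x ^ 2 + y ^ 2)
    exact ⟨u, v, huv⟩

/-- The vectors used by the construction. -/
theorem exists_vectors (m : ℕ) : ∃ w : Fin (2 ^ m - 1) → ℕ × ℕ, (∀ i, w i ≠ (0, 0)) ∧
    ∃ κ : ℝ, 0 < κ ∧ ∀ Q : ℕ, 1 ≤ Q → ∀ a : Fin (2 ^ m - 1) → ℤ, (∀ i, |a i| ≤ Q) → a ≠ 0 →
      ∀ b : ℤ, κ / (Q : ℝ) ^ (2 ^ m - 1) ≤
        |∑ i, (a i : ℝ) * Real.sqrt (((w i).1 : ℝ) ^ 2 + ((w i).2 : ℝ) ^ 2) - b| := by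
  obtain ⟨s, hsub, hcard⟩ :=
    (Nat.infinite_setOfPred_prime_modEq_one (k := 4) (by norm_num)).exists_subset_card_eq m
  have hs1 : ∀ q ∈ s, q.Prime := fun q hq => (hsub hq).1
  have hs4 : ∀ q ∈ s, q % 4 = 1 := fun q hq => by
    have := (hsub hq).2
    unfold Nat.ModEq at this
    omega
  have hcard2 : (s.powerset.erase ∅).card = 2 ^ m - 1 := by
    rw [Finset.card_erase_of_mem (Finset.empty_mem_powerset s), Finset.card_powerset, hcard]
  let e : Fin (2 ^ m - 1) ≃ (s.powerset.erase ∅ : Finset (Finset ℕ)) :=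
    (Fintype.equivFinOfCardEq (by rw [Fintype.card_coe]; exact hcard2)).symm
  have hT : ∀ i, ((e i : Finset ℕ) ≠ ∅ ∧ (e i : Finset ℕ) ⊆ s) := by
    intro i
    have := (e i).2
    rw [Finset.mem_erase, Finset.mem_powerset] at this
    exact this
  choose x y hxy using fun i => sum_two_squares (e i : Finset ℕ)
    fun q hq => ⟨hs1 q ((hT i).2 hq), hs4 q ((hT i).2 hq)⟩
  refine ⟨fun i => (x i, y i), ?_, ?_⟩
  · intro i h
    have h1 : x i = 0 := congrArg Prod.fst h
    have h2 : y i = 0 := congrArg Prod.snd h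
    have h3 := hxy i
    rw [h1, h2] at h3
    have h4 : 0 < ∏ q ∈ (e i : Finset ℕ), q :=
      Finset.prod_pos fun q hq => (hs1 q ((hT i).2 hq)).pos
    rw [h3] at h4
    norm_num at h4
  · obtain ⟨hfd, hfr⟩ := KF_fd s
    rw [hcard] at hfr
    have h2m : 1 ≤ 2 ^ m := Nat.one_le_two_pow
    have key := linear_form_lower (ι := Fin (2 ^ m - 1)) (KF s)
      (by rw [Fintype.card_fin]; omega)
      (fun i => ∏ q ∈ (e i : Finset ℕ), q)
      (fun i => by
        rw [sqrt_prod]
        exact prod_mem fun q hq => sqrt_mem_KF ((hT i).2 hq))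
      (by
        intro a b hab
        -- extend `a` to all subsets
        let a' : Finset ℕ → ℤ := fun T =>
          if h : T ∈ s.powerset.erase ∅ then a (e.symm ⟨T, h⟩) else -b
        have h1 : ∑ T ∈ s.powerset, (a' T : ℝ) * Real.sqrt ((∏ q ∈ T, q : ℕ) : ℝ) = 0 := by
          rw [← Finset.add_sum_erase _ _ (Finset.empty_mem_powerset s)]
          have h2 : (a' ∅ : ℝ) * Real.sqrt ((∏ q ∈ (∅ : Finset ℕ), q : ℕ) : ℝ) = -b := by
            simp [a']
          rw [h2, ← Finset.sum_coe_sort, ← Equiv.sum_comp e]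
          have h3 : ∑ i, (a' (e i : Finset ℕ) : ℝ) *
              Real.sqrt ((∏ q ∈ (e i : Finset ℕ), q : ℕ) : ℝ) = b := by
            rw [← hab]
            refine Finset.sum_congr rfl fun i _ => ?_
            congr 2
            simp only [a']
            rw [dif_pos (e i).2]
            simp
          rw [h3]
          ring
        have h4 := indep s hs1 a' h1
        funext i
        have h5 := h4 (e i : Finset ℕ) (Finset.mem_powerset.2 (hT i).2)
        simp only [a'] at h5
        rw [dif_pos (e i).2] at h5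
        simpa using h5)
    obtain ⟨κ, hκ, hκ2⟩ := key
    refine ⟨κ, hκ, fun Q hQ a ha ha0 b => ?_⟩
    have h6 := hκ2 Q hQ a ha ha0 b
    rw [Fintype.card_fin] at h6
    refine h6.trans (le_of_eq ?_)
    congr 2
    refine Finset.sum_congr rfl fun i _ => ?_
    congr 2
    rw [hxy i]
    push_cast
    rfl

end Pool.Agent.Helper88.Prec
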